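import Pool.Agent.H71.CQ.Basic

/-!
# LNI: the coding structures for links are countable-to-one
-/

set_option autoImplicit false

open Set

namespace Pool.Agent.H80.CQ

open Pool.Agent.H71.CQ

variable {L : Type} {N : NF L} {e : ℕ → ℕ → L}

/-- the labels of `z` on the orbit `O i` are a permutation of those of `y i` -/
def Pm (E : LV N e → LV N e → L) (O : ℕ → Set {k // Wp N e k}) (y : ℕ → ℕ) (i : ℕ)
    (z : LV N e) : Prop :=
  E z z = e (y i) (y i) ∧ ∃ s : Equiv.Perm {k // Wp N e k}, (∀ k, k ∉ O i → s k = k) ∧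
    ∀ k ∈ O i, E (Sum.inl (s k)) z = e k (y i)

/-- the invariant of two points -/
def Iv (E : LV N e → LV N e → L) (O : ℕ → Set {k // Wp N e k}) (y : ℕ → ℕ)
    (a b : LV N e) : Set ℕ :=
  {i | ∃ z z', Cm N E a z ∧ Cm N E b z' ∧ Pm E O y i z ∧ Pm E O y i z' ∧
    ∃ k ∈ O i, E (Sum.inl k) z ≠ E (Sum.inl k) z'}

variable {x : ℕ} {O : ℕ → Set {k // Wp N e k}} {y : ℕ → ℕ}
  {t : ℕ → Equiv.Perm {k // Wp N e k}}

/-- a permutation which is the identity outside of a set preserves the set -/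
theorem perm_mem {α : Type} {P : Set α} {s : Equiv.Perm α} (hs : ∀ k, k ∉ P → s k = k) (k : α) :
    s k ∈ P ↔ k ∈ P := by
  constructor
  · intro h
    by_contra hk
    rw [hs k hk] at h
    exact hk h
  · intro h
    by_contra hk
    have h1 := s.injective (hs _ hk)
    rw [h1] at hk
    exact hk h

/-- labels of the coding structure, the changed ones -/
theorem lw_in (hL : Lnk N e x O y t) (S : ℕ → Bool) {c : Fin 3} (hc : c ≠ 0) {z : ℕ}
    (hz : Cm N e x z) {i : ℕ} {k : {k // Wp N e k}} (hk : k ∈ O i) (hC : Cls N e (O i) (y i) z) :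
    Lw N e x O y t S c k z = if c = 2 ∧ S i = true then e (t i k) (y i) else e k (y i) := by
  have h : c ≠ 0 ∧ Cm N e x z ∧ ∃ i, k ∈ O i ∧ Cls N e (O i) (y i) z := ⟨hc, hz, i, hk, hC⟩
  unfold Lw
  rw [dif_pos h]
  have hi : h.2.2.choose = i := by
    by_contra hne
    exact Set.disjoint_left.1 (hL.dis _ _ hne) h.2.2.choose_spec.1 hk
  rw [hi]

/-- labels of the coding structure, the unchanged ones -/
theorem lw_out (hL : Lnk N e x O y t) (S : ℕ → Bool) (c : Fin 3) {z : ℕ}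
    {i : ℕ} {k : {k // Wp N e k}} (hk : k ∈ O i) (hC : ¬ Cls N e (O i) (y i) z) :
    Lw N e x O y t S c k z = e k z := by
  unfold Lw
  rw [dif_neg]
  rintro ⟨_, _, i', hk', hC'⟩
  by_cases hne : i' = i
  · subst hne
    exact hC hC'
  · exact Set.disjoint_left.1 (hL.dis _ _ hne) hk' hk

/-- the labels of the points of the copies `1`, `2` of the component of `x` -/
theorem pm_lab (hL : Lnk N e x O y t) (S : ℕ → Bool) {c : Fin 3} (hc : c ≠ 0)
    {z : {z // ¬ Wp N e z}} (hz : Cm N e x z) {i : ℕ}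
    (hP : Pm (LE N e x O y t S) O y i (Sum.inr (c, z))) (k : {k // Wp N e k}) (hk : k ∈ O i) :
    LE N e x O y t S (Sum.inl k) (Sum.inr (c, z)) =
      if c = 2 ∧ S i = true then e (t i k) (y i) else e k (y i) := by
  have hC : Cls N e (O i) (y i) z := by
    by_contra hC
    apply hC
    obtain ⟨h1, s, h2, h3⟩ := hP
    refine ⟨?_, s, h2, fun k hk => ?_⟩
    · have h4 : LE N e x O y t S (Sum.inr (c, z)) (Sum.inr (c, z)) = e z z := if_pos rfl
      rw [← h4]
      exact h1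
    · have h4 : LE N e x O y t S (Sum.inl (s k)) (Sum.inr (c, z)) = Lw N e x O y t S c (s k) z :=
        rfl
      rw [← h3 k hk, h4, lw_out hL S c ((perm_mem h2 k).2 hk) hC]
  exact lw_in hL S hc hz hk hC

theorem le_self (S : ℕ → Bool) (v : Fin 3 × {z // ¬ Wp N e z}) :
    LE N e x O y t S (Sum.inr v) (Sum.inr v) = e v.2 v.2 := if_pos rfl

theorem cls_self (i : ℕ) : Cls N e (O i) (y i) (y i) :=
  ⟨rfl, 1, fun _ _ => rfl, fun _ _ => rfl⟩

/-- the points of the component of a point of a copy -/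
theorem cm_inr (S : ℕ → Bool)
    (hW : (∀ k, Wp N (LE N e x O y t S) (Sum.inl k)) ∧
      (∀ v, ¬ Wp N (LE N e x O y t S) (Sum.inr v)) ∧
      ∀ v w : Fin 3 × {z // ¬ Wp N e z}, Cm N (LE N e x O y t S) (Sum.inr v) (Sum.inr w) ↔
        v.1 = w.1 ∧ Cm N e v.2 w.2) {v : Fin 3 × {z // ¬ Wp N e z}} {z : LV N e}
    (h : Cm N (LE N e x O y t S) (Sum.inr v) z) :
    ∃ w : {z // ¬ Wp N e z}, z = Sum.inr (v.1, w) ∧ Cm N e v.2 w := by
  rcases z with k | ⟨c, w⟩
  · exact absurd (hW.1 k) (h.not_wp (hW.2.1 v))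
  · obtain ⟨h1, h2⟩ := (hW.2.2 _ _).1 h
    refine ⟨w, ?_, h2⟩
    have h1 : v.1 = c := h1
    rw [h1]

/-- the invariant of the coding structure -/
theorem iv_eq (hL : Lnk N e x O y t) (S : ℕ → Bool)
    (hW : (∀ k, Wp N (LE N e x O y t S) (Sum.inl k)) ∧
      (∀ v, ¬ Wp N (LE N e x O y t S) (Sum.inr v)) ∧
      ∀ v w : Fin 3 × {z // ¬ Wp N e z}, Cm N (LE N e x O y t S) (Sum.inr v) (Sum.inr w) ↔
        v.1 = w.1 ∧ Cm N e v.2 w.2) :
    Iv (LE N e x O y t S) O y (Sum.inr (1, ⟨x, hL.hx⟩)) (Sum.inr (2, ⟨x, hL.hx⟩)) =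
      {i | S i = true} := by
  ext i
  constructor
  · rintro ⟨z, z', h1, h2, h3, h4, k, hk, hne⟩
    obtain ⟨w, rfl, hw⟩ := cm_inr S hW h1
    obtain ⟨w', rfl, hw'⟩ := cm_inr S hW h2
    by_contra hS
    apply hne
    have e1 := pm_lab hL S (show (1 : Fin 3) ≠ 0 by decide) hw h3 k hk
    have e2 := pm_lab hL S (show (2 : Fin 3) ≠ 0 by decide) hw' h4 k hk
    rw [if_neg (fun h => absurd h.1 (by decide))] at e1
    rw [if_neg (fun h => hS h.2)] at e2
    exact e1.trans e2.symm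
  · intro hS
    have hS : S i = true := hS
    have hy : ¬ Wp N e (y i) := (hL.hy i).not_wp hL.hx
    have e1 : ∀ k ∈ O i, LE N e x O y t S (Sum.inl k) (Sum.inr (1, ⟨y i, hy⟩)) = e k (y i) := by
      intro k hk
      have h := lw_in hL S (show (1 : Fin 3) ≠ 0 by decide) (hL.hy i) hk (cls_self i)
      rw [if_neg (fun h => absurd h.1 (by decide))] at h
      exact h
    have e2 : ∀ k ∈ O i,
        LE N e x O y t S (Sum.inl k) (Sum.inr (2, ⟨y i, hy⟩)) = e (t i k) (y i) := by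
      intro k hk
      have h := lw_in hL S (show (2 : Fin 3) ≠ 0 by decide) (hL.hy i) hk (cls_self i)
      rw [if_pos ⟨rfl, hS⟩] at h
      exact h
    refine ⟨Sum.inr (1, ⟨y i, hy⟩), Sum.inr (2, ⟨y i, hy⟩), (hW.2.2 _ _).2 ⟨rfl, hL.hy i⟩,
      (hW.2.2 _ _).2 ⟨rfl, hL.hy i⟩, ⟨le_self S _, 1, fun _ _ => rfl, e1⟩,
      ⟨le_self S _, (t i).symm, fun k hk => ?_, fun k hk => ?_⟩, ?_⟩
    · rw [Equiv.symm_apply_eq]
      exact (hL.ht i k hk).symm
    · have hk' : (t i).symm k ∈ O i := by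
        have h1 := perm_mem (hL.ht i) ((t i).symm k)
        rw [Equiv.apply_symm_apply] at h1
        exact h1.1 hk
      rw [e2 _ hk', Equiv.apply_symm_apply]
    · obtain ⟨k, hk, hne⟩ := hL.ne i
      refine ⟨k, hk, ?_⟩
      rw [e1 k hk, e2 k hk]
      exact hne

/-- the invariant is invariant (one inclusion) -/
theorem iv_sub (hL : Lnk N e x O y t) {E E' : LV N e → LV N e → L} {G : LV N e ≃ LV N e}
    (hG : IsIso E E' G) (h : {k // Wp N e k} ≃ {k // Wp N e k})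
    (hh : ∀ k, G (Sum.inl k) = Sum.inl (h k)) (hw : WIso N e e h) (a b : LV N e) :
    Iv E O y a b ⊆ Iv E' O y (G a) (G b) := by
  classical
  have lab : ∀ k z, E' (Sum.inl (h k)) (G z) = E (Sum.inl k) z := by
    intro k z
    rw [← hh, hG]
  have pm : ∀ i z, Pm E O y i z → Pm E' O y i (G z) := by
    rintro i z ⟨h1, s, h2, h3⟩
    have hinv : ∀ k, (h.trans (Equiv.refl _)) (s k) ∈ O i ↔ k ∈ O i := by
      intro k
      exact (hL.inv h hw i (s k)).symm.trans (perm_mem h2 k)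
    let f : Equiv.Perm {k // Wp N e k} := s.trans h
    have hf : ∀ k, f k ∈ O i ↔ k ∈ O i := hinv
    refine ⟨by rw [hG]; exact h1, Equiv.Perm.ofSubtype (f.subtypePerm (p := fun k => k ∈ O i)
      (fun k => hf k)), fun k hk => ?_, fun k hk => ?_⟩
    · exact Equiv.Perm.ofSubtype_apply_of_not_mem _ hk
    · rw [Equiv.Perm.ofSubtype_apply_of_mem _ hk, ← h3 k hk, ← lab]
      rfl
  rintro i ⟨z, z', h1, h2, h3, h4, k, hk, hne⟩
  refine ⟨G z, G z', (hG.cm _ _).2 h1, (hG.cm _ _).2 h2, pm i z h3, pm i z' h4, h k,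
    (hL.inv h hw i k).1 hk, ?_⟩
  rw [lab, lab]
  exact hne

/-- the isomorphism of the algebraic parts -/
theorem iso_alg {S S' : ℕ → Bool}
    (hW : (∀ k, Wp N (LE N e x O y t S) (Sum.inl k)) ∧
      ∀ v, ¬ Wp N (LE N e x O y t S) (Sum.inr v))
    (hW' : (∀ k, Wp N (LE N e x O y t S') (Sum.inl k)) ∧
      ∀ v, ¬ Wp N (LE N e x O y t S') (Sum.inr v)) {G : LV N e ≃ LV N e}
    (hG : IsIso (LE N e x O y t S) (LE N e x O y t S') G) :
    ∃ h : {k // Wp N e k} ≃ {k // Wp N e k}, (∀ k, G (Sum.inl k) = Sum.inl (h k)) ∧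
      WIso N e e h := by
  have h1 : ∀ k : {k // Wp N e k}, ∃ k', G (Sum.inl k) = Sum.inl k' := by
    intro k
    have h2 := (hG.wp (N := N) (Sum.inl k)).2 (hW.1 k)
    rcases hv : G (Sum.inl k) with k' | v
    · exact ⟨k', rfl⟩
    · rw [hv] at h2
      exact absurd h2 (hW'.2 v)
  have h1' : ∀ k : {k // Wp N e k}, ∃ k', G.symm (Sum.inl k) = Sum.inl k' := by
    intro k
    have h2 := (hG.symm.wp (N := N) (Sum.inl k)).2 (hW'.1 k)
    rcases hv : G.symm (Sum.inl k) with k' | v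
    · exact ⟨k', rfl⟩
    · rw [hv] at h2
      exact absurd h2 (hW.2 v)
  choose f hf using h1
  choose f' hf' using h1'
  refine ⟨⟨f, f', fun k => ?_, fun k => ?_⟩, hf, fun k k' => ?_⟩
  · have h2 := hf' (f k)
    rw [← hf k, G.symm_apply_apply] at h2
    exact (Sum.inl_injective h2).symm
  · have h2 := hf (f' k)
    rw [← hf' k, G.apply_symm_apply] at h2
    exact (Sum.inl_injective h2).symm
  · have h2 := hG (Sum.inl k) (Sum.inl k')
    rw [hf, hf] at h2
    exact h2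

theorem pf_LNI (hLNW : T_LNW) : T_LNI := by
  classical
  intro L N hS hF hU e x O y t hL S
  have hW := hLNW L N hS hF hU e x O y t hL
  refine (Set.countable_range fun p : LV N e × LV N e =>
    fun i : ℕ => decide (i ∈ Iv (LE N e x O y t S) O y p.1 p.2)).mono ?_
  rintro S' ⟨G, hG⟩
  obtain ⟨h, hh, hw⟩ := iso_alg ⟨(hW S).1, (hW S).2.1⟩ ⟨(hW S').1, (hW S').2.1⟩ hG
  obtain ⟨h', hh', hw'⟩ := iso_alg ⟨(hW S').1, (hW S').2.1⟩ ⟨(hW S).1, (hW S).2.1⟩ hG.symm
  refine ⟨(G.symm (Sum.inr (1, ⟨x, hL.hx⟩)), G.symm (Sum.inr (2, ⟨x, hL.hx⟩))), ?_⟩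
  have h1 := iv_eq hL S' (hW S')
  have h2 : Iv (LE N e x O y t S) O y (G.symm (Sum.inr (1, ⟨x, hL.hx⟩)))
      (G.symm (Sum.inr (2, ⟨x, hL.hx⟩))) = {i | S' i = true} := by
    rw [← h1]
    apply Set.Subset.antisymm
    · have h3 := iv_sub hL hG h hh hw (G.symm (Sum.inr (1, ⟨x, hL.hx⟩)))
        (G.symm (Sum.inr (2, ⟨x, hL.hx⟩)))
      rwa [G.apply_symm_apply, G.apply_symm_apply] at h3
    · exact iv_sub hL hG.symm h' hh' hw' _ _
  funext i
  change decide (i ∈ Iv (LE N e x O y t S) O y (G.symm (Sum.inr (1, ⟨x, hL.hx⟩)))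
      (G.symm (Sum.inr (2, ⟨x, hL.hx⟩)))) = S' i
  rw [h2]
  rcases hb : S' i with _ | _
  · rw [decide_eq_false_iff_not]
    intro h
    have h : S' i = true := h
    rw [hb] at h
    exact absurd h (by decide)
  · simp only [decide_eq_true_iff]
    exact hb

end Pool.Agent.H80.CQ
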